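import Mathlib
import Pool.Agent.Q91.TowerCifs

/-!
# The trichotomy for dimension spectra fails
-/

open Set Filter Topology
open scoped ENNReal

namespace Pool.Agent.Results.MP_b5d711_an.NoTrichotomy

open Q91.Cifs Q91.SimSys

/-- Type I: a union of finitely many intervals (order-connected sets, points allowed). -/
def TypeI (D : Set ℝ) : Prop :=
  ∃ 𝒜 : Set (Set ℝ), 𝒜.Finite ∧ (∀ A ∈ 𝒜, A.OrdConnected) ∧ D = ⋃₀ 𝒜

/-- Type II: Hausdorff dimension zero. -/
def TypeII (D : Set ℝ) : Prop := dimH D = 0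

/-- Type III: `dim_x(D) = min(1, c/x)` for all `x ∈ D`, for some `0 < c < sup D` (for `x = 0` the
right hand side is read as `1`). -/
def TypeIII (D : Set ℝ) : Prop :=
  ∃ c : ℝ, 0 < c ∧ c < sSup D ∧ ∀ x ∈ D, localDim D x = if x = 0 then 1 else
    ENNReal.ofReal (min 1 (c / x))

/-- An order-connected set of dimension zero is a point or empty. -/
lemma subsingleton_of_dimH {A : Set ℝ} (hA : A.OrdConnected) (h : dimH A = 0) :
    A.Subsingleton := by
  intro x hx y hy
  by_contra hne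
  have key : ∀ x ∈ A, ∀ y ∈ A, ¬ x < y := by
    intro x hx y hy hlt
    have h1 : Icc x y ⊆ A := hA.out hx hy
    have h2 := dimH_mono h1
    have h3 := Real.dimH_of_nonempty_interior (E := ℝ) (s := Icc x y)
      (by rw [interior_Icc, nonempty_Ioo]; exact hlt)
    rw [h, h3] at h2
    simp at h2
  rcases lt_or_gt_of_ne hne with h1 | h1
  · exact key x hx y hy h1
  · exact key y hy x hx h1

lemma not_typeI : ¬ TypeI Q91.Tower.DS := by
  rintro ⟨𝒜, hfin, hA, hD⟩
  -- the part to the right of `1/2` is finite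
  have hfin2 : (Q91.Tower.DS ∩ Ioi (1 / 2)).Finite := by
    have h1 : Q91.Tower.DS ∩ Ioi (1 / 2) = ⋃ A ∈ 𝒜, A ∩ Ioi (1 / 2) := by
      conv_lhs => rw [hD]
      rw [sUnion_eq_biUnion, iUnion₂_inter]
    rw [h1]
    refine hfin.biUnion fun A hAA => ?_
    have h2 : (A ∩ Ioi (1 / 2 : ℝ)).Subsingleton := by
      apply subsingleton_of_dimH ((hA A hAA).inter ordConnected_Ioi)
      apply le_antisymm _ zero_le
      rw [← Q91.Tower.dimH_DS_right]
      apply dimH_mono
      rintro x ⟨hx, hx'⟩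
      exact ⟨by rw [hD]; exact ⟨A, hAA, hx⟩, hx'⟩
    exact h2.finite
  -- but it accumulates at `1/2`
  obtain ⟨x₀, hx₀, hx₀1, -⟩ := Q91.Tower.exists_right one_pos
  have hne : (Q91.Tower.DS ∩ Ioi (1 / 2)).Nonempty := ⟨x₀, hx₀, hx₀1⟩
  obtain ⟨m, hm, hmin⟩ := hfin2.exists_minimalFor id _ hne
  have hm1 : 1 / 2 < m := hm.2
  obtain ⟨y, hy, hy1, hy2⟩ := Q91.Tower.exists_right (ε := m - 1 / 2) (by linarith)
  have h3 : y < m := by linarith
  have h4 := hmin (show y ∈ Q91.Tower.DS ∩ Ioi (1 / 2) from ⟨hy, hy1⟩) h3.le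
  exact absurd h4 (not_le.2 h3)

lemma not_typeII : ¬ TypeII Q91.Tower.DS := by
  intro h
  have h1 : Ioo (0 : ℝ) (1 / 2) ⊆ Q91.Tower.DS := fun x hx => Q91.Tower.left_mem hx.1 hx.2
  have h2 := dimH_mono h1
  have h3 := Real.dimH_of_nonempty_interior (E := ℝ) (s := Ioo (0 : ℝ) (1 / 2))
    (by rw [interior_Ioo, nonempty_Ioo]; norm_num)
  unfold TypeII at h
  rw [h, h3] at h2
  simp at h2

lemma not_typeIII : ¬ TypeIII Q91.Tower.DS := by
  rintro ⟨c, hc0, -, h⟩
  obtain ⟨x, hx, hx1, -⟩ := Q91.Tower.exists_right one_pos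
  have hx0 : 0 < x := by linarith
  have h1 := h x hx
  rw [localDim_right hx1, if_neg hx0.ne'] at h1
  have h2 : 0 < min 1 (c / x) := lt_min one_pos (div_pos hc0 hx0)
  have h3 := ENNReal.ofReal_pos.2 h2
  rw [← h1] at h3
  exact lt_irrefl _ h3

/-- **Theorem.** There is a conformal iterated function system on `[0, 1]` (consisting of
similarities `x ↦ t e + r e * x`) whose dimension spectrum is of none of the three types. -/
theorem result : ∃ (E : Type) (t r : E → ℝ), (∀ e, 0 < r e) ∧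
    IsCIFS (Icc 0 1) (fun e x => t e + r e * x) ∧
    ¬ TypeI (spectrumNonempty (Icc 0 1) (fun e x => t e + r e * x)) ∧
    ¬ TypeII (spectrumNonempty (Icc 0 1) (fun e x => t e + r e * x)) ∧
    ¬ TypeIII (spectrumNonempty (Icc 0 1) (fun e x => t e + r e * x)) := by
  have hφ : (fun (e : Q91.Tower.E) (x : ℝ) => Q91.Tower.S.t e + Q91.Tower.S.r e * x)
      = Q91.Tower.S.φ := rfl
  refine ⟨Q91.Tower.E, Q91.Tower.S.t, Q91.Tower.S.r, Q91.Tower.S.r0, ?_⟩
  rw [hφ, tower_spectrumNonempty]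
  exact ⟨tower_isCIFS, not_typeI, not_typeII, not_typeIII⟩

end Pool.Agent.Results.MP_b5d711_an.NoTrichotomy
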